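import Pool.Agent.R837.FN.Det7

/-!
MP_b525bf_ag: resolution of the quotients of the generic determinantal varieties in
characteristic `p` by the general linear groups over finite fields, by their parabolic subgroups
and by the groups of unipotent triangular matrices over finite fields.
-/

set_option autoImplicit false

open AlgebraicGeometry CategoryTheory MvPolynomial Pool.Agent.H920R2

universe u

namespace Pool.Agent.Results.MP_b525bf_ag.DeterminantalFiniteGroups

/-- The coordinate ring `k[B, C]` of the space of the pairs of an `n × s`-matrix `B` and an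
`s × m`-matrix `C`. -/
abbrev Pairs (k : Type u) [Field k] (n m s : ℕ) :=
  MvPolynomial ((Fin n × Fin s) ⊕ (Fin s × Fin m)) k

/-- The homomorphism `k[X] → k[B, C]`, `X i j ↦ ∑ l, B i l * C l j`, of the map
`(B, C) ↦ B C` to the space of `n × m`-matrices. Its image `k[BC]` is the coordinate ring of the
variety `X_s` of the `n × m`-matrices of rank at most `s` (`s ≤ n`, `s ≤ m`), with its reduced
structure. -/
noncomputable def product (k : Type u) [Field k] (n m s : ℕ) :
    MvPolynomial (Fin n × Fin m) k →ₐ[k] Pairs k n m s :=
  aeval fun u => ∑ l, X (Sum.inl (u.1, l)) * X (Sum.inr (l, u.2))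

section

variable {F : Type} [Field F] {k : Type u} [Field k] [Algebra F k] {n m s : ℕ}

/-- The substitution `B ↦ g B`, `C ↦ C` (hence `BC ↦ g (BC)`), for a matrix `g` over `F`. -/
noncomputable def left (g : Matrix (Fin n) (Fin n) F) : Pairs k n m s →ₐ[k] Pairs k n m s :=
  aeval (Sum.elim (fun u => ∑ i, C (algebraMap F k (g u.1 i)) * X (Sum.inl (i, u.2)))
    fun u => X (Sum.inr u))

/-- The matrices `g` with `g_(i, j) = 0` if the level `lv i` is smaller than the level `lv j`
(the block triangular matrices with respect to the levels), and with `g_(i, i) ^ t_i = 1` for all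
`i` which are alone in their level. -/
def IsLevelTriangular (lv t : Fin n → ℕ) (g : Matrix (Fin n) (Fin n) F) : Prop :=
  (∀ i j, lv i < lv j → g i j = 0) ∧ ∀ i, (∀ j, lv j = lv i → j = i) → g i i ^ t i = 1

end

/-- The polynomial `f` in the entries of `B` and `C` is a function on the determinantal variety
`X_s`, and it is invariant under the left multiplications by the invertible level triangular
matrices `g` over `F`. -/
def IsInvariant (F : Type) [Field F] (k : Type u) [Field k] [Algebra F k] (n m s : ℕ)
    (lv t : Fin n → ℕ) (f : Pairs k n m s) : Prop :=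
  f ∈ (product k n m s).range ∧ ∀ g : Matrix.GeneralLinearGroup (Fin n) F,
    IsLevelTriangular lv t (g : Matrix (Fin n) (Fin n) F) →
      left (g : Matrix (Fin n) (Fin n) F) f = f

/-- The algebra of the functions on the determinantal variety `X_s` which are invariant under the
left multiplications by the finite group of the invertible level triangular matrices over `F`. -/
noncomputable def invariants (F : Type) [Field F] (k : Type u) [Field k] [Algebra F k]
    (n m s : ℕ) (lv t : Fin n → ℕ) : Subalgebra k (Pairs k n m s) where
  carrier := {f | IsInvariant F k n m s lv t f}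
  mul_mem' := fun {a b} ha hb => ⟨Subalgebra.mul_mem _ ha.1 hb.1, fun g hg => by
    rw [map_mul, ha.2 g hg, hb.2 g hg]⟩
  add_mem' := fun {a b} ha hb => ⟨Subalgebra.add_mem _ ha.1 hb.1, fun g hg => by
    rw [map_add, ha.2 g hg, hb.2 g hg]⟩
  algebraMap_mem' := fun c => ⟨Subalgebra.algebraMap_mem _ c, fun _ _ => AlgHom.commutes _ c⟩

/-- The quotient of the determinantal variety `X_s` by the finite group of the invertible level
triangular matrices over `F`. -/
noncomputable def quot (F : Type) [Field F] (k : Type u) [Field k] [Algebra F k] (n m s : ℕ)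
    (lv t : Fin n → ℕ) : Scheme.{u} :=
  Spec (CommRingCat.of (invariants F k n m s lv t))

/-- The structure morphism of the quotient. -/
noncomputable def quotStr (F : Type) [Field F] (k : Type u) [Field k] [Algebra F k] (n m s : ℕ)
    (lv t : Fin n → ℕ) : quot F k n m s lv t ⟶ Spec (CommRingCat.of k) :=
  Spec.map (CommRingCat.ofHom (algebraMap k (invariants F k n m s lv t)))

/-- Let `F` be a finite field with `q` elements, `k` a field which contains `F`, and
`0 < s < n`, `s < m`. Let `lv i`, `i < n`, be levels, and `t i` divisors of `q - 1`. Let `G` be the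
finite group of the invertible `n × n`-matrices `g` over `F` which are block triangular with
respect to the levels, with `g_(i, i) ^ t_i = 1` for all `i` which are alone in their level. Then
the quotient of the variety `X_s` of the `n × m`-matrices of rank at most `s` over `k` by `G`,
acting by left multiplication, is a variety and has a resolution of singularities. -/
theorem result (F : Type) [Field F] [Fintype F] (k : Type u) [Field k] [Algebra F k]
    (n m s : ℕ) (hs : 0 < s) (hsn : s < n) (hsm : s < m) (lv t : Fin n → ℕ)
    (ht : ∀ i, t i ∣ Fintype.card F - 1) :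
    IsVariety (quotStr F k n m s lv t) ∧
    ∃ (Y : Scheme.{u}) (π : Y ⟶ quot F k n m s lv t),
      AlgebraicGeometry.IsIntegral Y ∧ AlgebraicGeometry.IsProper π ∧
      AlgebraicGeometry.Smooth (π ≫ quotStr F k n m s lv t) ∧
      ∃ U : (quot F k n m s lv t).Opens,
        Dense (U : Set (quot F k n m s lv t)) ∧ IsIso (π ∣_ U) := by
  obtain ⟨p, hchF⟩ := CharP.exists F
  have hp : Fact p.Prime := ⟨CharP.char_is_prime F p⟩
  have hch : CharP k p := charP_of_injective_algebraMap (algebraMap F k).injective p
  have heq : Pool.Agent.R837.FN.AD F k n m s (p ^ 0) (p ^ 0) lv t =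
      invariants F k n m s lv t := by
    rw [pow_zero]
    apply le_antisymm
    · exact fun f hf => ⟨(Pool.Agent.Y212.Dk.mem_InvD.1 hf.1).1, hf.2⟩
    · exact fun f hf => ⟨Pool.Agent.R837.FN.mem_InvD_one hf.1, hf.2⟩
  have h1 : Algebra.FiniteType k (invariants F k n m s lv t) := by
    rw [← heq]
    exact Pool.Agent.R837.FN.finiteType_AD le_rfl lv t
  have h2 : IsVariety (X := Spec (CommRingCat.of (invariants F k n m s lv t)))
      (Spec.map (CommRingCat.ofHom (algebraMap k (invariants F k n m s lv t)))) :=
    isVariety_spec
  have h3 := Pool.Agent.R837.FN.main_det (F := F) (k := k) (p := p) (r := 0) (r' := 0) hs hsn.le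
    hsm.le le_rfl lv t ht
  rw [heq] at h3
  exact ⟨h2, h3⟩

end Pool.Agent.Results.MP_b525bf_ag.DeterminantalFiniteGroups
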