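import Pool.Agent.R837.FN.Ext4

/-!
MP_b525bf_ag: resolution of the quotients of the products of a smooth affine variety and a space
of matrices in characteristic `p` by extensions of finite linear groups over finite fields and
diagonalizable group schemes.
-/

set_option autoImplicit false

open AlgebraicGeometry CategoryTheory MvPolynomial Pool.Agent.H920R2

universe u

namespace Pool.Agent.Results.MP_b525bf_ag.DiagonalizableExtensions

section

variable {F : Type} [Field F] (k : Type u) {S : Type u} [Field k] [Algebra F k] [CommRing S]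
  [Algebra k S] {n m : ℕ}

/-- The substitution `x ↦ g x` in the polynomial ring `S[x_(i, l)]`, `i < n`, `l < m`, the
coordinate ring of the product of `Z = Spec S` and the space of `n × m`-matrices, for a matrix `g`
over `F`. -/
noncomputable def subst (g : Matrix (Fin n) (Fin n) F) :
    MvPolynomial (Fin n × Fin m) S →ₐ[S] MvPolynomial (Fin n × Fin m) S :=
  aeval fun p => ∑ j, C (algebraMap k S (algebraMap F k (g p.1 j))) * X (j, p.2)

/-- The matrices `g` with `g_(i, j) = 0` if the level `lv i` is smaller than the level `lv j`
(the block triangular matrices with respect to the levels), and with `g_(i, i) ^ t_i = 1` for all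
`i` which are alone in their level. -/
def IsLevelTriangular (lv t : Fin n → ℕ) (g : Matrix (Fin n) (Fin n) F) : Prop :=
  (∀ i j, lv i < lv j → g i j = 0) ∧ ∀ i, (∀ j, lv j = lv i → j = i) → g i i ^ t i = 1

end

/-- The function `f` is invariant under the left multiplications by the invertible level
triangular matrices over `F`. -/
def IsGroupInvariant (F : Type) [Field F] (k : Type u) [Field k] [Algebra F k] {S : Type u}
    [CommRing S] [Algebra k S] {n m : ℕ} (lv t : Fin n → ℕ)
    (f : MvPolynomial (Fin n × Fin m) S) : Prop :=
  ∀ g : Matrix.GeneralLinearGroup (Fin n) F,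
    IsLevelTriangular lv t (g : Matrix (Fin n) (Fin n) F) →
      subst k (g : Matrix (Fin n) (Fin n) F) f = f

/-- The function `f` is homogeneous of degree `0` for the grading of `S[x_(i, l)]` which extends
the grading `𝒮` of `S` and in which `x_(i, l)` has the degree `a_i + b_l`: it is invariant under
the action of the diagonalizable group scheme `D = Spec k[Λ]` given by this grading. -/
def HasDegreeZero {k S : Type u} [Field k] [CommRing S] [Algebra k S] {Λ : Type}
    [AddCommGroup Λ] (𝒮 : Λ → Submodule k S) {n m : ℕ} (a : Fin n → Λ) (b : Fin m → Λ)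
    (f : MvPolynomial (Fin n × Fin m) S) : Prop :=
  ∀ d : Fin n × Fin m →₀ ℕ, f.coeff d ∈ 𝒮 (-∑ u, d u • (a u.1 + b u.2))

/-- The function `f` is invariant under the level triangular group and has degree `0`. -/
def IsInvariant (F : Type) [Field F] {k S : Type u} [Field k] [Algebra F k]
    [CommRing S] [Algebra k S] {Λ : Type} [AddCommGroup Λ] (𝒮 : Λ → Submodule k S) {n m : ℕ}
    (lv t : Fin n → ℕ) (a : Fin n → Λ) (b : Fin m → Λ)
    (f : MvPolynomial (Fin n × Fin m) S) : Prop :=
  IsGroupInvariant F k lv t f ∧ HasDegreeZero 𝒮 a b f

section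

variable (F : Type) [Field F] [Fintype F] {k S : Type u} [Field k] [Algebra F k]
  [CommRing S] [Algebra k S] {Λ : Type} [AddCommGroup Λ] [Fintype Λ] [DecidableEq Λ]
  (𝒮 : Λ → Submodule k S) [GradedAlgebra 𝒮] {n m : ℕ} (lv t : Fin n → ℕ) (a : Fin n → Λ)
  (b : Fin m → Λ)

theorem isInvariant_iff (f : MvPolynomial (Fin n × Fin m) S) :
    IsInvariant F 𝒮 lv t a b f ↔ f ∈ Pool.Agent.R837.FN.ZG F k S n m 𝒮 lv t a b :=
  (Pool.Agent.R837.FN.mem_ZG F k S n m 𝒮).symm

theorem IsInvariant.mul {f g : MvPolynomial (Fin n × Fin m) S}
    (hf : IsInvariant F 𝒮 lv t a b f) (hg : IsInvariant F 𝒮 lv t a b g) :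
    IsInvariant F 𝒮 lv t a b (f * g) := by
  rw [isInvariant_iff] at hf hg ⊢
  exact Subalgebra.mul_mem _ hf hg

theorem IsInvariant.add {f g : MvPolynomial (Fin n × Fin m) S}
    (hf : IsInvariant F 𝒮 lv t a b f) (hg : IsInvariant F 𝒮 lv t a b g) :
    IsInvariant F 𝒮 lv t a b (f + g) := by
  rw [isInvariant_iff] at hf hg ⊢
  exact Subalgebra.add_mem _ hf hg

theorem IsInvariant.const (c : k) :
    IsInvariant F 𝒮 lv t a b (algebraMap k (MvPolynomial (Fin n × Fin m) S) c) := by
  rw [isInvariant_iff]
  exact Subalgebra.algebraMap_mem _ c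

/-- The algebra of the functions on the product of `Z = Spec S` and the space of
`n × m`-matrices which are invariant under the level triangular group over `F` and under the
diagonalizable group scheme `D`. -/
noncomputable def invariants : Subalgebra k (MvPolynomial (Fin n × Fin m) S) where
  carrier := {f | IsInvariant F 𝒮 lv t a b f}
  mul_mem' := fun hf hg => IsInvariant.mul F 𝒮 lv t a b hf hg
  add_mem' := fun hf hg => IsInvariant.add F 𝒮 lv t a b hf hg
  algebraMap_mem' := fun c => IsInvariant.const F 𝒮 lv t a b c

/-- The quotient of the product of `Z = Spec S` and the space of `n × m`-matrices. -/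
noncomputable def quot : Scheme.{u} := Spec (CommRingCat.of (invariants F 𝒮 lv t a b))

/-- The structure morphism of the quotient. -/
noncomputable def quotStr : quot F 𝒮 lv t a b ⟶ Spec (CommRingCat.of k) :=
  Spec.map (CommRingCat.ofHom (algebraMap k (invariants F 𝒮 lv t a b)))

end

/-- Let `F` be a finite field with `q` elements, `k` a field which contains `F`, and `Z = Spec S` a
smooth integral affine variety over `k` with an action of a finite diagonalizable group scheme
`D = Spec k[Λ]` (a grading of `S` by the finite abelian group `Λ`, whose order may be divisible by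
`p`). Let `lv i`, `i < n`, be levels, `t i` divisors of `q - 1`, and let `G` be the finite group
of the invertible `n × n`-matrices `g` over `F` which are block triangular with respect to the
levels, with `g_(i, i) ^ t_i = 1` for all `i` which are alone in their level. Let `D` act on the
space of `n × m`-matrices, `m > 0`, so that the entry `x_(i, l)` has the weight `a_i + b_l`, where
`(q - 1) a_i = 0`. Then the quotient of the product of `Z` and the space of `n × m`-matrices by `G`
(acting by left multiplication on the second factor) and `D` is a variety and has a resolution of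
singularities. -/
theorem result (F : Type) [Field F] [Fintype F] (k S : Type u) [Field k] [Algebra F k]
    [CommRing S] [IsDomain S] [Algebra k S] [Algebra.Smooth k S] (Λ : Type) [AddCommGroup Λ]
    [Fintype Λ] [DecidableEq Λ] (𝒮 : Λ → Submodule k S) [GradedAlgebra 𝒮] (n m : ℕ) (hm : 0 < m)
    (lv t : Fin n → ℕ) (ht : ∀ i, t i ∣ Fintype.card F - 1) (a : Fin n → Λ)
    (ha : ∀ i, (Fintype.card F - 1) • a i = 0) (b : Fin m → Λ) :
    IsVariety (quotStr F 𝒮 lv t a b) ∧ HasResolution (quotStr F 𝒮 lv t a b) := by
  have heq : Pool.Agent.R837.FN.ZG F k S n m 𝒮 lv t a b = invariants F 𝒮 lv t a b :=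
    SetLike.ext fun f => (isInvariant_iff F 𝒮 lv t a b f).symm
  have h := Pool.Agent.R837.FN.main_G F k S n m 𝒮 hm lv t ht a ha b
  rw [heq] at h
  have h1 : Algebra.FiniteType k (invariants F 𝒮 lv t a b) := h.1
  have h2 : IsVariety (X := Spec (CommRingCat.of (invariants F 𝒮 lv t a b)))
      (Spec.map (CommRingCat.ofHom (algebraMap k (invariants F 𝒮 lv t a b)))) :=
    isVariety_spec
  exact ⟨h2, h.2⟩

end Pool.Agent.Results.MP_b525bf_ag.DiagonalizableExtensions
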