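import Pool.Agent.R837.FD.Conj

/-!
MP_b525bf_ag: resolution of the quotients of the spaces of `n × m`-matrices in characteristic `p`
(that is, of `m` copies of the natural representation) by all subgroups of `GL_n (F)`, `F` a finite
field of characteristic `p`, whose index is prime to `p`, that is, by all subgroups which contain a
Sylow `p`-subgroup of `GL_n (F)`.
-/

set_option autoImplicit false

open AlgebraicGeometry CategoryTheory MvPolynomial Pool.Agent.H920R2

universe u

namespace Pool.Agent.Results.MP_b525bf_ag.PrimeToPIndexGroups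

variable {F : Type} [Field F] {k : Type u} [Field k] [Algebra F k] {n m : ℕ}

/-- The linear substitution `x_(i, l) ↦ ∑ j, g_(i, j) * x_(j, l)` in the polynomial ring
`k[x_(i, l)]`, `i < n`, `l < m`, the coordinate ring of the space of `n × m`-matrices, given by an
`n × n`-matrix `g` over `F`: the action of `g` by left multiplication. -/
noncomputable def subst (g : Matrix (Fin n) (Fin n) F) :
    MvPolynomial (Fin n × Fin m) k →ₐ[k] MvPolynomial (Fin n × Fin m) k :=
  aeval fun p => ∑ j, C (algebraMap F k (g p.1 j)) * X (j, p.2)

/-- The algebra of the polynomials which are invariant under the elements of the group `G`. -/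
def invariants (k : Type u) [Field k] [Algebra F k] (m : ℕ)
    (G : Subgroup (Matrix.GeneralLinearGroup (Fin n) F)) :
    Subalgebra k (MvPolynomial (Fin n × Fin m) k) where
  carrier := {b | ∀ g ∈ G, subst (g : Matrix (Fin n) (Fin n) F) b = b}
  mul_mem' := fun {a b} ha hb g hg => by rw [map_mul, ha g hg, hb g hg]
  add_mem' := fun {a b} ha hb g hg => by rw [map_add, ha g hg, hb g hg]
  algebraMap_mem' := fun c g _ => AlgHom.commutes _ c

/-- The quotient of the space of `n × m`-matrices over `k` by the group. -/
noncomputable def quot (k : Type u) [Field k] [Algebra F k] (m : ℕ)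
    (G : Subgroup (Matrix.GeneralLinearGroup (Fin n) F)) : Scheme.{u} :=
  Spec (CommRingCat.of (invariants k m G))

/-- The structure morphism of the quotient. -/
noncomputable def quotStr (k : Type u) [Field k] [Algebra F k] (m : ℕ)
    (G : Subgroup (Matrix.GeneralLinearGroup (Fin n) F)) :
    quot k m G ⟶ Spec (CommRingCat.of k) :=
  Spec.map (CommRingCat.ofHom (algebraMap k (invariants k m G)))

lemma subst_eq [Fintype F] (g : Matrix (Fin n) (Fin n) F) :
    (subst g : MvPolynomial (Fin n × Fin m) k →ₐ[k] MvPolynomial (Fin n × Fin m) k) =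
      Pool.Agent.R837.FM.aff g (fun _ => 0 : Fin n → Fin m → k) := by
  apply algHom_ext
  rintro ⟨i, l⟩
  rw [Pool.Agent.R837.FM.aff_X, Pi.zero_apply, C_0, add_zero]
  unfold subst
  rw [aeval_X]

lemma invariants_eq [Fintype F] (G : Subgroup (Matrix.GeneralLinearGroup (Fin n) F)) :
    invariants k m G = Pool.Agent.R837.FM.inva
      (Pool.Agent.R837.FS.affG G (⊥ : Submodule F (Fin m → k))) := by
  ext b
  rw [Pool.Agent.R837.FD.mem_inva_iff]
  refine forall_congr' fun g => forall_congr' fun _ => ?_
  rw [subst_eq]

/-- Let `F` be a finite field of characteristic `p`, `k` a field which contains `F`, `m > 0`, and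
`G` a subgroup of `GL_n (F)` whose index is prime to `p` (equivalently, `G` contains a Sylow
`p`-subgroup of `GL_n (F)`, for example the group of the unitriangular matrices). Then the quotient
of the space of the `n × m`-matrices over `k` by `G` (acting by left multiplication, that is, on
`m` copies of the natural representation) is a variety and has a resolution of singularities. -/
theorem result (F : Type) [Field F] [Fintype F] (p : ℕ) [Fact p.Prime] [CharP F p]
    (k : Type u) [Field k] [Algebra F k] (n m : ℕ) (hm : 0 < m)
    (G : Subgroup (Matrix.GeneralLinearGroup (Fin n) F)) (hG : ¬ p ∣ G.index) :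
    IsVariety (quotStr k m G) ∧
    ∃ (Y : Scheme.{u}) (π : Y ⟶ quot k m G),
      AlgebraicGeometry.IsIntegral Y ∧ AlgebraicGeometry.IsProper π ∧
      AlgebraicGeometry.Smooth (π ≫ quotStr k m G) ∧
      ∃ U : (quot k m G).Opens, Dense (U : Set (quot k m G)) ∧ IsIso (π ∣_ U) := by
  have he := invariants_eq (k := k) (m := m) G
  unfold quotStr quot
  rw [he]
  have h5 : Algebra.FiniteType k (Pool.Agent.R837.FM.inva
      (Pool.Agent.R837.FS.affG G (⊥ : Submodule F (Fin m → k)))) :=
    Pool.Agent.R837.FM.finiteType_inva _
  have h6 : IsVariety (X := Spec (CommRingCat.of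
      (Pool.Agent.R837.FM.inva (Pool.Agent.R837.FS.affG G (⊥ : Submodule F (Fin m → k))))))
      (Spec.map (CommRingCat.ofHom (algebraMap k
        (Pool.Agent.R837.FM.inva (Pool.Agent.R837.FS.affG G
          (⊥ : Submodule F (Fin m → k))))))) :=
    isVariety_spec
  exact ⟨h6, Pool.Agent.R837.FD.final hm p G hG⟩

end Pool.Agent.Results.MP_b525bf_ag.PrimeToPIndexGroups
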