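import Pool.Agent.R837.FS.Main

/-!
MP_b525bf_ag: resolution of the quotients of the spaces of `n × m`-matrices in characteristic `p`
by the special linear group `SL_n (F)` over a finite field `F`, by all groups between `SL_n (F)`
and `GL_n (F)`, by the parabolic groups with a condition on the determinant of the last block, and
by the corresponding affine groups.
-/

set_option autoImplicit false

open AlgebraicGeometry CategoryTheory MvPolynomial Pool.Agent.H920R2

universe u

namespace Pool.Agent.Results.MP_b525bf_ag.SpecialLinearGroups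

variable {F : Type} [Field F] {k : Type u} [Field k] [Algebra F k] {n m : ℕ}

/-- The substitution `x_(i, l) ↦ ∑ j, g_(i, j) * x_(j, l) + v_(i, l)` in the polynomial ring
`k[x_(i, l)]`, `i < n`, `l < m`, the coordinate ring of the space of `n × m`-matrices: the
substitution `x ↦ g x + v` given by an `n × n`-matrix `g` over `F` and an `n × m`-matrix `v` over
`k`. -/
noncomputable def subst (g : Matrix (Fin n) (Fin n) F) (v : Fin n → Fin m → k) :
    MvPolynomial (Fin n × Fin m) k →ₐ[k] MvPolynomial (Fin n × Fin m) k :=
  aeval fun p => ∑ j, C (algebraMap F k (g p.1 j)) * X (j, p.2) + C (v p.1 p.2)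

/-- The matrices `g` with `g_(i, j) = 0` if the level `lv i` is smaller than the level `lv j`
(the block triangular matrices with respect to the levels), with `g_(i, i) ^ s_i = 1` for all
`i` of level `< a` which are alone in their level, and with `det (g_a) ^ d = 1`, where `g_a` is the
diagonal block of `g` of the indices of level `a`. -/
def IsSpecial (lv s : Fin n → ℕ) (a d : ℕ) (g : Matrix (Fin n) (Fin n) F) : Prop :=
  (∀ i j, lv i < lv j → g i j = 0) ∧
  (∀ i, lv i < a → (∀ j, lv j = lv i → j = i) → g i i ^ s i = 1) ∧
  (Matrix.of fun i j : {i // lv i = a} => g i j).det ^ d = 1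

/-- `σ` is one of the substitutions `x ↦ g x + v` with an invertible matrix `g` over `F` with the
above properties and a matrix `v` all of whose rows are in the `F`-vector space `W ⊆ k ^ m`. -/
def IsSubst (lv s : Fin n → ℕ) (a d : ℕ) (W : Submodule F (Fin m → k))
    (σ : MvPolynomial (Fin n × Fin m) k ≃ₐ[k] MvPolynomial (Fin n × Fin m) k) : Prop :=
  ∃ g : Matrix.GeneralLinearGroup (Fin n) F, IsSpecial lv s a d (g : Matrix (Fin n) (Fin n) F) ∧
    ∃ v : Fin n → Fin m → k, (∀ i, v i ∈ W) ∧
    (σ : MvPolynomial (Fin n × Fin m) k →ₐ[k] MvPolynomial (Fin n × Fin m) k) =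
      subst (g : Matrix (Fin n) (Fin n) F) v

/-- The finite group of the substitutions `x ↦ g x + v` with an invertible matrix `g` over the
finite field `F` with the above properties and a matrix `v` all of whose rows are in the finite
`F`-vector space `W ⊆ k ^ m`. -/
def group [Fintype F] (lv s : Fin n → ℕ) (a d : ℕ) (W : Submodule F (Fin m → k)) :
    Subgroup (MvPolynomial (Fin n × Fin m) k ≃ₐ[k] MvPolynomial (Fin n × Fin m) k) where
  carrier := {σ | IsSubst lv s a d W σ}
  mul_mem' := fun ha hb =>
    (Pool.Agent.R837.FS.affG (Pool.Agent.R837.FS.parT F lv s a d) W).mul_mem ha hb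
  one_mem' := (Pool.Agent.R837.FS.affG (Pool.Agent.R837.FS.parT F lv s a d) W).one_mem
  inv_mem' := fun ha =>
    (Pool.Agent.R837.FS.affG (Pool.Agent.R837.FS.parT F lv s a d) W).inv_mem ha

/-- The algebra of the polynomials which are invariant under a group of automorphisms. -/
def invariants (Γ : Subgroup (MvPolynomial (Fin n × Fin m) k ≃ₐ[k] MvPolynomial (Fin n × Fin m) k)) :
    Subalgebra k (MvPolynomial (Fin n × Fin m) k) where
  carrier := {b | ∀ σ ∈ Γ, σ b = b}
  mul_mem' := fun {a b} ha hb σ hσ => by rw [map_mul, ha σ hσ, hb σ hσ]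
  add_mem' := fun {a b} ha hb σ hσ => by rw [map_add, ha σ hσ, hb σ hσ]
  algebraMap_mem' := fun c σ _ => AlgEquiv.commutes σ c

/-- The quotient of the space of `n × m`-matrices over `k` by a group. -/
noncomputable def quot
    (Γ : Subgroup (MvPolynomial (Fin n × Fin m) k ≃ₐ[k] MvPolynomial (Fin n × Fin m) k)) :
    Scheme.{u} := Spec (CommRingCat.of (invariants Γ))

/-- The structure morphism of the quotient. -/
noncomputable def quotStr
    (Γ : Subgroup (MvPolynomial (Fin n × Fin m) k ≃ₐ[k] MvPolynomial (Fin n × Fin m) k)) :
    quot Γ ⟶ Spec (CommRingCat.of k) :=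
  Spec.map (CommRingCat.ofHom (algebraMap k (invariants Γ)))

/-- Let `F` be a finite field with `q` elements, `k` a field which contains `F` and `n`, `m`
natural numbers, `m > 0`. Let `lv i`, `i < n`, be levels with maximum `a`, let `d` and `s i`,
`i < n`, be divisors of `q - 1`, and `W` a finite `F`-subspace of `k ^ m`. Let `Γ` be the finite
group of the transformations `x ↦ g x + v` of the space of `n × m`-matrices over `k`, where `g` is
an invertible matrix over `F` which is block triangular with respect to the levels, with
`det (g_a) ^ d = 1` for its block `g_a` of the highest level `a`, and `g_(i, i) ^ s_i = 1` for all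
`i` which are alone in a lower level, and where all rows of `v` are in `W`. Then the quotient of the
space of `n × m`-matrices by `Γ` is a variety and has a resolution of singularities. For only one
level (`lv = 0`, `a = 0`) and `d = 1`, `W = 0` the group is `SL_n (F)`. -/
theorem result (F : Type) [Field F] [Fintype F] (k : Type u) [Field k] [Algebra F k] (n m : ℕ)
    (hm : 0 < m) (lv s : Fin n → ℕ) (a d : ℕ) (ha : ∀ i, lv i ≤ a) (ha' : ∃ i, lv i = a)
    (hs : ∀ i, lv i < a → s i ∣ Fintype.card F - 1) (hd : d ∣ Fintype.card F - 1)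
    (W : Submodule F (Fin m → k)) [Finite W] :
    IsVariety (quotStr (group lv s a d W)) ∧
    ∃ (Y : Scheme.{u}) (π : Y ⟶ quot (group lv s a d W)),
      AlgebraicGeometry.IsIntegral Y ∧ AlgebraicGeometry.IsProper π ∧
      AlgebraicGeometry.Smooth (π ≫ quotStr (group lv s a d W)) ∧
      ∃ U : (quot (group lv s a d W)).Opens,
        Dense (U : Set (quot (group lv s a d W))) ∧ IsIso (π ∣_ U) := by
  have h1 : Algebra.FiniteType k
      (Pool.Agent.R837.FM.inva (Pool.Agent.R837.FS.affG (n := n)
        (Pool.Agent.R837.FS.parT F lv s a d) W)) :=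
    Pool.Agent.R837.FM.finiteType_inva _
  have h2 : IsVariety (X := Spec (CommRingCat.of
      (Pool.Agent.R837.FM.inva (Pool.Agent.R837.FS.affG (n := n)
        (Pool.Agent.R837.FS.parT F lv s a d) W))))
      (Spec.map (CommRingCat.ofHom (algebraMap k
        (Pool.Agent.R837.FM.inva (Pool.Agent.R837.FS.affG (n := n)
        (Pool.Agent.R837.FS.parT F lv s a d) W))))) :=
    isVariety_spec
  exact ⟨h2, Pool.Agent.R837.FS.main hm lv s a d ha ha' hs hd W⟩

end Pool.Agent.Results.MP_b525bf_ag.SpecialLinearGroups
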